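import Pool.Agent.Helper35.EC.Geom

/-!
# MP_0db605_an : frames and the chart (EC-T4a)
-/

namespace EC

open Matrix
open scoped Matrix.Norms.Elementwise

theorem exists_frame {n k : ℕ} {T : Matrix (Fin n) (Fin n) ℝ} (hT : T ∈ Gr n k) :
    ∃ W : Matrix (Fin n) (Fin k) ℝ, Wᵀ * W = 1 ∧ W * Wᵀ = T := by
  obtain ⟨hs, hi, hr⟩ := hT
  set V : Submodule ℝ (EuclideanSpace ℝ (Fin n)) := LinearMap.range (toEuclideanLin T) with hV
  have hfin : Module.finrank ℝ V = k := by
    rw [← hr, hV]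
    rw [Matrix.rank_eq_finrank_range_toLin T (EuclideanSpace.basisFun (Fin n) ℝ).toBasis
      (EuclideanSpace.basisFun (Fin n) ℝ).toBasis]
    rw [Matrix.toEuclideanLin_eq_toLin_orthonormal]
  let b : OrthonormalBasis (Fin k) ℝ V :=
    (stdOrthonormalBasis ℝ V).reindex (finCongr hfin)
  let W : Matrix (Fin n) (Fin k) ℝ := Matrix.of fun i j => (b j : EuclideanSpace ℝ (Fin n)) i
  have hWW : Wᵀ * W = 1 := by
    ext i j
    have h1 : (Wᵀ * W) i j = inner ℝ (b j : EuclideanSpace ℝ (Fin n)) (b i) := by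
      rw [EuclideanSpace.inner_eq_star_dotProduct]
      simp [Matrix.mul_apply, W, dotProduct]
    rw [h1, ← Submodule.coe_inner, b.inner_eq_ite, Matrix.one_apply]
    by_cases hij : i = j <;> simp [hij, eq_comm]
  have hTW : T * W = W := by
    have key : ∀ j, toEuclideanLin T (b j : EuclideanSpace ℝ (Fin n)) = b j := by
      intro j
      obtain ⟨x, hx⟩ := (b j).2
      rw [← hx]
      apply PiLp.ext
      intro i
      simp [Matrix.toLpLin_apply, Matrix.mulVec_mulVec, hi]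
    ext i j
    have h2 := congrArg (fun v : EuclideanSpace ℝ (Fin n) => v i) (key j)
    simp only [Matrix.toLpLin_apply] at h2
    simpa [Matrix.mul_apply, W, Matrix.mulVec, dotProduct] using h2
  have hWT : W * (Wᵀ * T) = T := by
    ext i j
    let t : V := ⟨toEuclideanLin T (EuclideanSpace.single j 1), ⟨_, rfl⟩⟩
    have h3 := b.sum_repr' t
    have h4 := congrArg (fun v : V => (v : EuclideanSpace ℝ (Fin n)) i) h3
    have h5 : ∀ l, (t : EuclideanSpace ℝ (Fin n)) l = T l j := by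
      intro l
      simp [t, Matrix.toLpLin_apply]
    rw [← h5 i, ← h4]
    simp only [Submodule.coe_sum, Submodule.coe_smul]
    rw [Matrix.mul_apply]
    simp only [PiLp.smul_apply, WithLp.ofLp_sum, Finset.sum_apply]
    refine Finset.sum_congr rfl fun l _ => ?_
    rw [mul_comm]
    have h6 : (Wᵀ * T) l j = inner ℝ (b l) t := by
      rw [Submodule.coe_inner, EuclideanSpace.inner_eq_star_dotProduct]
      simp [Matrix.mul_apply, W, dotProduct, h5, mul_comm]
    rw [h6]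
    rfl
  refine ⟨W, hWW, ?_⟩
  have h7 := congrArg Matrix.transpose hWT
  rw [Matrix.transpose_mul, Matrix.transpose_mul, Matrix.transpose_transpose, hs] at h7
  rw [← h7, hTW]

theorem colProj_mem_Gr {n k : ℕ} {M : Matrix (Fin n) (Fin k) ℝ} (hM : IsUnit (Mᵀ * M).det) :
    colProj M ∈ Gr n k := by
  have hMM : (Mᵀ * M)ᵀ = Mᵀ * M := by rw [Matrix.transpose_mul, Matrix.transpose_transpose]
  have h1 : Mᵀ * colProj M * M = Mᵀ * M := by
    unfold colProj
    rw [show Mᵀ * (M * (Mᵀ * M)⁻¹ * Mᵀ) * M = (Mᵀ * M) * (Mᵀ * M)⁻¹ * (Mᵀ * M) by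
      simp only [Matrix.mul_assoc]]
    rw [Matrix.mul_nonsing_inv _ hM, Matrix.one_mul]
  refine ⟨?_, ?_, ?_⟩
  · unfold colProj
    rw [Matrix.transpose_mul, Matrix.transpose_mul, Matrix.transpose_transpose,
      Matrix.transpose_nonsing_inv, hMM, Matrix.mul_assoc]
  · unfold colProj
    rw [show M * (Mᵀ * M)⁻¹ * Mᵀ * (M * (Mᵀ * M)⁻¹ * Mᵀ)
      = M * ((Mᵀ * M)⁻¹ * (Mᵀ * M)) * (Mᵀ * M)⁻¹ * Mᵀ by simp only [Matrix.mul_assoc]]
    rw [Matrix.nonsing_inv_mul _ hM, Matrix.mul_one]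
  · apply le_antisymm
    · unfold colProj
      rw [Matrix.mul_assoc]
      refine (Matrix.rank_mul_le_left _ _).trans ?_
      exact (Matrix.rank_le_width M)
    · have h2 : (Mᵀ * M).rank = k := by
        have := Matrix.rank_of_isUnit (Mᵀ * M) ((Matrix.isUnit_iff_isUnit_det _).2 hM)
        simpa using this
      calc k = (Mᵀ * colProj M * M).rank := by rw [h1, h2]
        _ ≤ _ := (Matrix.rank_mul_le_left _ _).trans (Matrix.rank_mul_le_right _ _)

theorem colProj_mul {n k : ℕ} {M : Matrix (Fin n) (Fin k) ℝ} {g : Matrix (Fin k) (Fin k) ℝ}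
    (hg : IsUnit g.det) : colProj (M * g) = colProj M := by
  unfold colProj
  have hg' : IsUnit gᵀ.det := by rwa [Matrix.det_transpose]
  rw [Matrix.transpose_mul, show gᵀ * Mᵀ * (M * g) = gᵀ * ((Mᵀ * M) * g) by
    simp only [Matrix.mul_assoc], Matrix.mul_inv_rev, Matrix.mul_inv_rev]
  rw [show M * g * (g⁻¹ * (Mᵀ * M)⁻¹ * gᵀ⁻¹) * (gᵀ * Mᵀ)
    = M * (g * g⁻¹) * (Mᵀ * M)⁻¹ * (gᵀ⁻¹ * gᵀ) * Mᵀ by simp only [Matrix.mul_assoc]]
  rw [Matrix.mul_nonsing_inv _ hg, Matrix.nonsing_inv_mul _ hg', Matrix.mul_one, Matrix.mul_one]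

theorem stack_transpose_mul (A B C D : M2) :
    (stack A B)ᵀ * stack C D = Aᵀ * C + Bᵀ * D := by
  ext i j
  simp [stack, Matrix.mul_apply, Fin.sum_univ_succ]
  ring

theorem stack_mul (A B C : M2) : stack A B * C = stack (A * C) (B * C) := by
  ext i j
  fin_cases i <;> simp [stack, Matrix.mul_apply, Fin.sum_univ_succ]

theorem blk11_stack (A B C D M : M2) : blk11 (stack A B * M * (stack C D)ᵀ) = A * M * Cᵀ := by
  rw [stack_mul]
  ext i j
  fin_cases i <;> fin_cases j <;>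
    simp [stack, blk11, Matrix.mul_apply, Fin.sum_univ_succ]

theorem blk21_stack (A B C D M : M2) : blk21 (stack A B * M * (stack C D)ᵀ) = B * M * Cᵀ := by
  rw [stack_mul]
  ext i j
  fin_cases i <;> fin_cases j <;>
    simp [stack, blk21, Matrix.mul_apply, Fin.sum_univ_succ]

theorem exists_stack (W : M42) : ∃ A B : M2, W = stack A B := by
  refine ⟨!![W 0 0, W 0 1; W 1 0, W 1 1], !![W 2 0, W 2 1; W 3 0, W 3 1], ?_⟩
  ext i j
  fin_cases i <;> fin_cases j <;> rfl

theorem gram_stack_one (X : M2) : (stack 1 X)ᵀ * stack 1 X = 1 + Xᵀ * X := by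
  rw [stack_transpose_mul]; simp

theorem one_le_det_one_add (X : M2) : 1 ≤ (1 + Xᵀ * X).det := by
  rw [Matrix.det_fin_two]
  simp [Matrix.mul_apply, Fin.sum_univ_succ]
  nlinarith [sq_nonneg (X 0 0), sq_nonneg (X 0 1), sq_nonneg (X 1 0), sq_nonneg (X 1 1),
    sq_nonneg (X 0 0 * X 1 1 - X 0 1 * X 1 0)]

theorem isUnit_det_one_add (X : M2) : IsUnit (1 + Xᵀ * X).det := by
  have := one_le_det_one_add X
  exact isUnit_iff_ne_zero.2 (by linarith)

theorem Pm_mem_Gr (X : M2) : Pm X ∈ Gr 4 2 := by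
  apply colProj_mem_Gr
  rw [gram_stack_one]
  exact isUnit_det_one_add X

theorem Pm_eq (X : M2) : Pm X = stack 1 X * (1 + Xᵀ * X)⁻¹ * (stack 1 X)ᵀ := by
  unfold Pm colProj
  rw [gram_stack_one]

theorem blk11_Pm (X : M2) : blk11 (Pm X) = (1 + Xᵀ * X)⁻¹ := by
  rw [Pm_eq, blk11_stack]; simp

theorem blk21_Pm (X : M2) : blk21 (Pm X) = X * (1 + Xᵀ * X)⁻¹ := by
  rw [Pm_eq, blk21_stack]; simp

theorem Xof_Pm (X : M2) : Xof (Pm X) = X := by
  unfold Xof
  rw [blk11_Pm, blk21_Pm, Matrix.nonsing_inv_nonsing_inv _ (isUnit_det_one_add X),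
    Matrix.mul_assoc, Matrix.nonsing_inv_mul _ (isUnit_det_one_add X), Matrix.mul_one]

theorem det_blk11_Pm (X : M2) : (blk11 (Pm X)).det = (1 + Xᵀ * X).det⁻¹ := by
  rw [blk11_Pm, Matrix.det_nonsing_inv, Ring.inverse_eq_inv']

/-- a plane with invertible upper left block is the graph of `Xof T` -/
theorem eq_Pm_of_mem_Gr {T : M4} (hT : T ∈ Gr 4 2) (h : (blk11 T).det ≠ 0) :
    T = Pm (Xof T) := by
  obtain ⟨W, hW, hWT⟩ := exists_frame hT
  obtain ⟨A, B, rfl⟩ := exists_stack W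
  have h1 : blk11 T = A * Aᵀ := by
    rw [← hWT]
    have := blk11_stack A B A B 1
    simpa using this
  have h2 : blk21 T = B * Aᵀ := by
    rw [← hWT]
    have := blk21_stack A B A B 1
    simpa using this
  have hA : IsUnit A.det := by
    rw [h1, Matrix.det_mul, Matrix.det_transpose] at h
    exact isUnit_iff_ne_zero.2 (left_ne_zero_of_mul h)
  have hA' : IsUnit Aᵀ.det := by rwa [Matrix.det_transpose]
  have hX : Xof T = B * A⁻¹ := by
    unfold Xof
    rw [h1, h2, Matrix.mul_inv_rev, Matrix.mul_assoc, ← Matrix.mul_assoc Aᵀ,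
      Matrix.mul_nonsing_inv _ hA', Matrix.one_mul]
  have h3 : stack A B = stack 1 (B * A⁻¹) * A := by
    rw [stack_mul, Matrix.one_mul, Matrix.mul_assoc, Matrix.nonsing_inv_mul _ hA, Matrix.mul_one]
  have h4 : colProj (stack A B) = T := by
    unfold colProj
    rw [hW, inv_one, Matrix.mul_one, hWT]
  rw [hX, Pm, ← colProj_mul (M := stack 1 (B * A⁻¹)) hA, ← h3, h4]

end EC
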